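import Pool.Agent.R267.TBasis

set_option autoImplicit false

open Filter Topology
open scoped ENNReal

namespace Pool.Agent.Results.MP_8f7167_an.TailSumCounterexample

section defs

variable {𝕜 : Type} [RCLike 𝕜]

/-- consistent matrices (rows and columns indexed from `0`) -/
def Consistent (T : ℕ → ℕ → 𝕜) : Prop :=
  (∃ M : ℝ, ∀ n, Summable (fun m => ‖T n m‖) ∧ ∑' m, ‖T n m‖ ≤ M) ∧
  (∀ m, Tendsto (fun n => T n m) atTop (𝓝 0)) ∧
  Tendsto (fun n => ∑' m, T n m) atTop (𝓝 1)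

/-- the tail-sum matrix -/
noncomputable def tailSum (T : ℕ → ℕ → 𝕜) (n m : ℕ) : 𝕜 := ∑' j, T n (m + j)

variable {E : Type} [NormedAddCommGroup E] [NormedSpace 𝕜 E]

/-- `M`-basis with associated functionals -/
def IsMBasis (x : ℕ → E) (f : ℕ → E →L[𝕜] 𝕜) : Prop :=
  (∀ i j : ℕ, f i (x j) = if i = j then 1 else 0) ∧
  (∀ y : E, y ∈ closure ((Submodule.span 𝕜 (Set.range x) : Submodule 𝕜 E) : Set E)) ∧
  (∀ y : E, (∀ i, f i y = 0) → y = 0)

/-- `α` represents `y` by the method `T`: all `σ_n = lim_m ∑_{j<m} t_{nj} s_j` exist, where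
`s_j = ∑_{i≤j} α_i x_i`, and `σ_n → y` -/
def Represents (T : ℕ → ℕ → 𝕜) (x : ℕ → E) (α : ℕ → 𝕜) (y : E) : Prop :=
  ∃ σ : ℕ → E, (∀ n, Tendsto (fun m => ∑ j ∈ Finset.range m,
    T n j • ∑ i ∈ Finset.range (j + 1), α i • x i) atTop (𝓝 (σ n))) ∧ Tendsto σ atTop (𝓝 y)

/-- `T`-basis -/
def IsTBasis (T : ℕ → ℕ → 𝕜) (x : ℕ → E) : Prop := ∀ y : E, ∃! α : ℕ → 𝕜, Represents T x α y

/-- `γ`-basis with respect to the matrix `lam` -/
def IsGammaBasis (lam : ℕ → ℕ → 𝕜) (x : ℕ → E) (f : ℕ → E →L[𝕜] 𝕜) : Prop :=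
  IsMBasis x f ∧ ∀ y : E, ∃ τ : ℕ → E, (∀ n, Tendsto (fun m => ∑ i ∈ Finset.range m,
    lam n i • (f i y • x i)) atTop (𝓝 (τ n))) ∧ Tendsto τ atTop (𝓝 y)

end defs

open Pool.Agent.R267.TB

lemma dense (𝕜 : Type) [RCLike 𝕜] (y : EE 𝕜) :
    y ∈ closure ((Submodule.span 𝕜 (Set.range (xx : ℕ → EE 𝕜)) : Submodule 𝕜 (EE 𝕜)) :
      Set (EE 𝕜)) := by
  have h := (tendsto_ee y).comp ((tendsto_id.const_mul_atTop' (by norm_num : 0 < 2)) :
    Tendsto (fun k : ℕ => 2 * k) atTop atTop)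
  apply mem_closure_of_tendsto h
  refine Eventually.of_forall fun K => ?_
  have h1 := psum_pairs (fun i => fn i y) K
  simp only [beta_fn] at h1
  change ∑ m ∈ Finset.range (2 * K), y m • (ee m : EE 𝕜) ∈ _
  rw [← h1]
  apply Submodule.sum_mem
  intro i _
  exact Submodule.smul_mem _ _ (Submodule.subset_span ⟨i, rfl⟩)

/-- For both scalar fields there are a consistent matrix `T` and a `T`-basis of a Banach space
(a Hilbert space) which is not a `γ`-basis for the tail-sum matrix of `T`; there is even a vector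
for which all the series `∑ᵢ λ_{ni} fᵢ(y) xᵢ` diverge. -/
theorem result : ∀ (𝕜 : Type) [RCLike 𝕜],
    ∃ (T : ℕ → ℕ → 𝕜) (E : Type) (_ : NormedAddCommGroup E) (_ : NormedSpace 𝕜 E)
      (_ : CompleteSpace E) (x : ℕ → E) (f : ℕ → E →L[𝕜] 𝕜),
      Consistent T ∧ IsMBasis x f ∧ IsTBasis T x ∧ (∀ y, Represents T x (fun i => f i y) y) ∧
      ¬ IsGammaBasis (tailSum T) x f ∧
      ∃ y : E, ∀ n, ¬ ∃ τ : E, Tendsto (fun m => ∑ i ∈ Finset.range m,
        tailSum T n i • (f i y • x i)) atTop (𝓝 τ) := by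
  intro 𝕜 _
  refine ⟨tt 𝕜, EE 𝕜, inferInstance, inferInstance, inferInstance, xx, fn, ⟨⟨1, fun n => ?_⟩,
    tt_eventually, ?_⟩, ⟨fn_xx, dense 𝕜, ?_⟩, ?_, exists_tcoeff, ?_, yy, diverges⟩
  · simp only [norm_tt]
    exact ⟨(row_hasSum (𝕜 := ℝ) n).summable, (row_hasSum (𝕜 := ℝ) n).tsum_eq.le⟩
  · simp only [(row_hasSum (𝕜 := 𝕜) _).tsum_eq]
    exact tendsto_const_nhds
  · intro y hy
    ext m
    rw [← beta_fn y m]
    unfold beta
    simp only [hy]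
    simp
  · intro y
    refine ⟨fun i => fn i y, exists_tcoeff y, ?_⟩
    intro α hα
    funext n
    exact tcoeff_unique α y hα n
  · rintro ⟨_, h⟩
    obtain ⟨τ, hτ, _⟩ := h (yy : EE 𝕜)
    exact diverges (𝕜 := 𝕜) 0 ⟨τ 0, hτ 0⟩

end Pool.Agent.Results.MP_8f7167_an.TailSumCounterexample
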